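import Pool.Agent.Lib_helper81.BC.Ch0

/-!
# Heights at an edge between runs with three and four letters, both with a second neighbour of the
same sign
-/

set_option autoImplicit false

namespace Pool.Agent.TBY

open Real Pool.Agent.BX Pool.Agent.BC Pool.Agent.M5 Pool.Agent.HT Pool.Agent.L1

def F3 : ℕ → ℕ → ℕ
  | 2, 1 => 0x800708400800600906006870075490008400080649800400980009704004500700047905890080080084944
  | 3, 0 => 0x60800906009060000089705069470000947000476800700785400900040068059700079400704500444
  | 3, 1 => 0x800600405069000698400800408700604006040060480040857900079500079050444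
  | 3, 2 => 0x90800700706059000698400405005800800400987007590090444
  | 4, 0 => 0x705400464006040004700040570608000069006805749000908460000400860579006440060457007500047050444
  | 4, 1 => 0x805406400040590046000405089008600500080504700860594700750000605049705005444
  | 4, 2 => 0x740500480040864004004004690040048008008600006040597054970009750000497050444
  | _, _ => 0

def F4 : ℕ → ℕ → ℕ
  | 2, 1 => 0x7080076006008067400700800405087400700746900400480080087600074000746980040047006008780060060470060040678900048000780074944
  | 3, 0 => 0x70078007600405009800400074905009058700800405087640060064000890500905600905470070444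
  | 3, 1 => 0x80600908009087007640090400960040600504004056970070444
  | 3, 2 => 0x7009009740090094800700740007486006004069004080080400869700900970444
  | 4, 0 => 0x7007640040600406006570070444
  | 4, 1 => 0x600706400406004050670070444
  | 4, 2 => 0x600087007640040056009040500905670070444
  | _, _ => 0

theorem F3_ck2 : chk 3 true true ⟨6590, 10480, 4490, 5400⟩ (boxS 4 2) (boxS 2 1) 15 (F3 2 1) = true := by
  decide +kernel

theorem F3_ck : allT1 [3, 4] (fun a b => chk 3 true true ⟨6590, 10480, 4490, 5400⟩ (boxS 4 2) (boxS a b) 15 (F3 a b)) =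
    true := by
  decide +kernel

theorem F4_ck2 : chk 4 true true ⟨6070, 9290, 2540, 3200⟩ (boxS 3 2) (boxS 2 1) 10 (F4 2 1) = true := by
  decide +kernel

theorem F4_ck : allT1 [3, 4] (fun a b => chk 4 true true ⟨6070, 9290, 2540, 3200⟩ (boxS 3 2) (boxS a b) 10 (F4 a b)) =
    true := by
  decide +kernel

section
variable {ι : Type} [Finite ι] {e : ι → ℕ} {φ : ι → ℂ} {nb : ι → Bool → Option (ι × Bool)}
  {A : ι → Bool → ℂ}

/-- **the run with three letters** at an edge `3S | 4S`, the outer neighbour of the same sign with at
most four letters -/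
theorem v3_3S4S (h : SO e φ nb A)
    (sym : ∀ i j t s, nb i t = some (j, s) → nb j (!t) = some (i, s)) {i j m : ι} {t : Bool}
    (hi : e i = 3) (hj : e j = 4) (hij : nb i t = some (j, true)) (hjo : ko (nb j t) = 2)
    (him : nb i (!t) = some (m, true)) (hm : e m ≤ 4) :
    27 / 50 ≤ -(wd (φ i)).im := by
  by_contra hv
  push Not at hv
  have sym' : ∀ i t j s, nb i t = some (j, s) → ∃ t', nb j t' = some (i, s) :=
    fun i t j s hh => ⟨!t, sym i j t s hh⟩
  have bi := in_boxS h sym' hij
  rw [him, hi] at bi
  have bj := in_boxS h sym' (sym i j t true hij)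
  rw [Bool.not_not, hjo, hj] at bj
  have hmi := sym i m (!t) true him
  rw [Bool.not_not] at hmi
  have bm := in_boxS h sym' hmi
  have hc : (⟨6590, 10480, 4490, 5400⟩ : Bq).In (φ i) := by
    obtain ⟨a1, a2, a3, a4⟩ := bi
    exact ⟨a1, a2, a3, by push_cast; linarith⟩
  have hb := ko_mem (nb m (!t))
  have h2 := h.two m
  rcases (by omega : e m = 2 ∨ e m = 3 ∨ e m = 4) with hm | hm | hm
  · rw [hm, ko_two h hm hmi] at bm
    exact ok_of h F3_ck2 (by norm_num) i j m t hi hij him hc bj bm
  · rw [hm] at bm
    exact ok_of h (allT1_ok F3_ck (by simp) hb) (by norm_num) i j m t hi hij him hc bj bm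
  · rw [hm] at bm
    exact ok_of h (allT1_ok F3_ck (by simp) hb) (by norm_num) i j m t hi hij him hc bj bm

/-- **the run with four letters** at an edge `3S | 4S`, the outer neighbour of the same sign with at
most four letters -/
theorem v4_3S4S (h : SO e φ nb A)
    (sym : ∀ i j t s, nb i t = some (j, s) → nb j (!t) = some (i, s)) {i j m : ι} {t : Bool}
    (hi : e i = 4) (hj : e j = 3) (hij : nb i t = some (j, true)) (hjo : ko (nb j t) = 2)
    (him : nb i (!t) = some (m, true)) (hm : e m ≤ 4) :
    8 / 25 ≤ -(wd (φ i)).im := by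
  by_contra hv
  push Not at hv
  have sym' : ∀ i t j s, nb i t = some (j, s) → ∃ t', nb j t' = some (i, s) :=
    fun i t j s hh => ⟨!t, sym i j t s hh⟩
  have bi := in_boxS h sym' hij
  rw [him, hi] at bi
  have bj := in_boxS h sym' (sym i j t true hij)
  rw [Bool.not_not, hjo, hj] at bj
  have hmi := sym i m (!t) true him
  rw [Bool.not_not] at hmi
  have bm := in_boxS h sym' hmi
  have hc : (⟨6070, 9290, 2540, 3200⟩ : Bq).In (φ i) := by
    obtain ⟨a1, a2, a3, a4⟩ := bi
    exact ⟨a1, a2, a3, by push_cast; linarith⟩
  have hb := ko_mem (nb m (!t))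
  have h2 := h.two m
  rcases (by omega : e m = 2 ∨ e m = 3 ∨ e m = 4) with hm | hm | hm
  · rw [hm, ko_two h hm hmi] at bm
    exact ok_of h F4_ck2 (by norm_num) i j m t hi hij him hc bj bm
  · rw [hm] at bm
    exact ok_of h (allT1_ok F4_ck (by simp) hb) (by norm_num) i j m t hi hij him hc bj bm
  · rw [hm] at bm
    exact ok_of h (allT1_ok F4_ck (by simp) hb) (by norm_num) i j m t hi hij him hc bj bm

end

end Pool.Agent.TBY
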